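import Pool.Agent.W784.BC.P7

set_option autoImplicit false

namespace Pool.Agent.Results.MP_9e0505_an.NullPositive

open Pool.Agent.W784.BC

/-- For `0 < α < 1 < p` with `αp < n` there is a compact set `K` with `H^{n-αp}(K) = 0` and
`A_{α,p,q}(K) > 0` for all `1 ≤ q < p`. -/
theorem result (n : ℕ) (α p : ℝ) (hα : 0 < α) (_hα1 : α < 1) (_hp : 1 < p)
    (hn : α * p < (n : ℝ)) :
    ∃ K : Set (EuclideanSpace ℝ (Fin n)), IsCompact K ∧
      MeasureTheory.Measure.hausdorffMeasure ((n : ℝ) - α * p) K = 0 ∧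
      ∀ q : ℝ, 1 ≤ q → q < p → 0 < besovCap n α p q K := by
  rcases n with _ | k
  · exfalso
    have : 0 < α * p := by positivity
    push_cast at hn
    linarith
  · push_cast at hn
    have hd : 0 < (k : ℝ) + 1 - α * p := by linarith
    refine ⟨KS k ((k : ℝ) + 1 - α * p), KS_compact _, ?_, fun q hq hqp => ?_⟩
    · push_cast
      exact KS_haus hd
    · exact main hα hq hqp hd rfl

end Pool.Agent.Results.MP_9e0505_an.NullPositive
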